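import Pool.Agent.Q32.LR2.Stm

/-!
# Project LR2: GOOD, assembly of the levels
-/

set_option autoImplicit false

namespace Q65.LR2

open Q32.LR2

theorem sp_compl {V : Type} {p q : Ultrafilter V} {U : Set V} : Sp p q Uᶜ ↔ Sp p q U := by
  unfold Sp
  rw [Ultrafilter.compl_mem_iff_notMem, Ultrafilter.compl_mem_iff_notMem, not_not, not_not]
  exact or_comm

theorem good : S_GOOD := by
  intro hCO hNL hSTA hSTB hMT hCRF hFT V X hX P n
  have hc1 : ∀ U W : Set V, Nst U W → Nst Uᶜ W := fun U W => (hNL V U W ∅).2.1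
  have hs : ∀ U W : Set V, Nst U W → Nst W U := fun U W => (hNL V U W ∅).1
  have hc2 : ∀ U W : Set V, Nst Uᶜ W ↔ Nst U W := by
    intro U W
    refine ⟨fun h => ?_, hc1 U W⟩
    have := hc1 _ _ h
    rwa [compl_compl] at this
  have hmc : ∀ (m : ℕ) (U : Set V), U ∈ MC X P m → Uᶜ ∈ MC X P m := by
    rintro m U ⟨h1, h2, p, hp, q, hq, h3, h4⟩
    obtain ⟨h5, h6⟩ := (hCO V X).1 U h1
    exact ⟨h5, h6.trans h2, p, hp, q, hq, sp_compl.2 h3, h4⟩
  have hnc : ∀ (m : ℕ) (B : Set (Set V)) (U : Set V), U ∈ NC X P m B → Uᶜ ∈ NC X P m B :=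
    fun m B U h => ⟨hmc m U h.1, fun W hW => hc1 _ _ (h.2 W hW)⟩
  have hcr : ∀ (N : Set (Set V)) (U : Set V), cr N Uᶜ = cr N U := by
    intro N U
    ext Z
    exact and_congr_right fun _ => not_congr (hc2 U Z)
  have hnew : ∀ (m : ℕ) (B : Set (Set V)) (U : Set V), U ∈ New X P m B → Uᶜ ∈ New X P m B := by
    rintro m B U ⟨h1, p, hp, q, hq, h2, h3, h4⟩
    refine ⟨hnc m B U h1, p, hp, q, hq, sp_compl.2 h2, h3, fun W hW hs => ?_⟩
    rw [hcr]
    exact h4 W hW hs
  induction n with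
  | zero =>
    exact { compl := fun U hU => hU.elim
            nst := fun U hU => hU.elim
            mc := fun U hU => hU.elim
            sep := fun p _ q _ ⟨W, _, _, h⟩ => absurd h (Nat.not_lt_zero _) }
  | succ n ih =>
    refine { compl := ?_, nst := ?_, mc := ?_, sep := ?_ }
    · rintro U (hU | hU)
      · exact Or.inl (ih.compl U hU)
      · exact Or.inr (hnew n _ U hU)
    · rintro U (hU | hU) W (hW | hW)
      · exact ih.nst U hU W hW
      · exact hs _ _ (hW.1.2 U hU)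
      · exact hU.1.2 W hW
      · exact hSTB hCO hNL hMT hCRF hFT V X hX P n _ ih U hU W hW
    · rintro U (hU | hU)
      · obtain ⟨m, hm, h⟩ := ih.mc U hU
        exact ⟨m, by omega, h⟩
      · exact ⟨n, by omega, hU.1.1⟩
    · intro p hp q hq ⟨W, hW1, hW2, hW3⟩
      by_cases h : ∃ W, Sp p q W ∧ (cob X W).Finite ∧ (cob X W).ncard < n
      · obtain ⟨U, hU, h1⟩ := ih.sep p hp q hq h
        exact ⟨U, Or.inl hU, h1⟩
      · have hLo : Lo X n p q := by
          intro W' h1 h2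
          by_contra h3
          exact h ⟨W', h1, h2, by omega⟩
        have h4 := hLo W hW1 hW2
        have hex := hSTA hCO hNL hMT hCRF hFT V X hX P n _ ih p hp q hq hLo
          ⟨W, hW1, hW2, by omega⟩
        obtain ⟨U, ⟨hU1, hU2⟩, hmin⟩ := WellFounded.has_min
          (measure fun U : Set V => (cr (NC X P n (Cum X P n)) U).ncard).wf
          {U | U ∈ NC X P n (Cum X P n) ∧ Sp p q U} hex
        refine ⟨U, Or.inr ⟨hU1, p, hp, q, hq, hU2, hLo, fun W' h5 h6 => ?_⟩, hU2⟩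
        have h7 := hmin W' ⟨h5, h6⟩
        exact not_lt.1 h7

end Q65.LR2
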