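import Pool.Agent.Q32.LR2.Stm

/-!
# Project LR2: INV, invariance under automorphisms
-/

set_option autoImplicit false

namespace Q65.LR2

open Q32.LR2

section

variable {V : Type} {X : SimpleGraph V} {P : Set (Ultrafilter V)}

theorem sym_image (σ : Equiv.Perm V) (W : Set V) : σ '' (σ.symm '' W) = W :=
  σ.image_symm_image W

theorem cob_image (σ : Equiv.Perm V) (hσ : ∀ x y, X.Adj (σ x) (σ y) ↔ X.Adj x y) (U : Set V) :
    cob X (σ '' U) = Prod.map σ σ '' cob X U := by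
  ext ⟨a, b⟩
  constructor
  · rintro ⟨h1, h2, h3⟩
    refine ⟨(σ.symm a, σ.symm b), ⟨?_, ?_, ?_⟩, ?_⟩
    · have := hσ (σ.symm a) (σ.symm b)
      rw [σ.apply_symm_apply, σ.apply_symm_apply] at this
      exact this.1 h1
    · obtain ⟨c, hc, h4⟩ := h2
      change σ c = a at h4
      change σ.symm a ∈ U
      rw [← h4, σ.symm_apply_apply]
      exact hc
    · intro h4
      exact h3 ⟨_, h4, σ.apply_symm_apply b⟩
    · exact Prod.ext (σ.apply_symm_apply a) (σ.apply_symm_apply b)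
  · rintro ⟨⟨c, d⟩, ⟨h1, h2, h3⟩, h4⟩
    obtain ⟨rfl, rfl⟩ : σ c = a ∧ σ d = b := ⟨congrArg Prod.fst h4, congrArg Prod.snd h4⟩
    refine ⟨(hσ c d).2 h1, ⟨c, h2, rfl⟩, ?_⟩
    rintro ⟨e, he, h5⟩
    rw [σ.injective h5] at he
    exact h3 he

theorem inj_map (σ : Equiv.Perm V) : Function.Injective (Prod.map σ σ) :=
  σ.injective.prodMap σ.injective

theorem cob_fin (σ : Equiv.Perm V) (hσ : ∀ x y, X.Adj (σ x) (σ y) ↔ X.Adj x y) (U : Set V) :
    ((cob X (σ '' U)).Finite ↔ (cob X U).Finite) ∧ (cob X (σ '' U)).ncard = (cob X U).ncard := by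
  rw [cob_image σ hσ U]
  exact ⟨Set.finite_image_iff (inj_map σ).injOn, Set.ncard_image_of_injective _ (inj_map σ)⟩

theorem mem_map_image (σ : Equiv.Perm V) (p : Ultrafilter V) (U : Set V) :
    σ '' U ∈ p.map σ ↔ U ∈ p := by
  rw [Ultrafilter.mem_map, Set.preimage_image_eq _ σ.injective]

theorem sp_image (σ : Equiv.Perm V) (p q : Ultrafilter V) (U : Set V) :
    Sp (p.map σ) (q.map σ) (σ '' U) ↔ Sp p q U := by
  unfold Sp
  rw [mem_map_image, mem_map_image]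

theorem lo_image (σ : Equiv.Perm V) (hσ : ∀ x y, X.Adj (σ x) (σ y) ↔ X.Adj x y) {n : ℕ}
    {p q : Ultrafilter V} (h : Lo X n p q) : Lo X n (p.map σ) (q.map σ) := by
  intro W h1 h2
  rw [← sym_image σ W] at h1 h2 ⊢
  rw [sp_image] at h1
  obtain ⟨h3, h4⟩ := cob_fin σ hσ (σ.symm '' W)
  rw [h3] at h2
  rw [h4]
  exact h _ h1 h2

theorem nst_image (σ : Equiv.Perm V) (U W : Set V) : Nst (σ '' U) (σ '' W) ↔ Nst U W := by
  unfold Nst
  rw [← Set.image_compl_eq σ.bijective, ← Set.image_compl_eq σ.bijective,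
    Set.image_subset_image_iff σ.injective, Set.image_subset_image_iff σ.injective,
    Set.image_subset_image_iff σ.injective, Set.image_subset_image_iff σ.injective]

theorem mc_image (σ : Equiv.Perm V) (hσ : ∀ x y, X.Adj (σ x) (σ y) ↔ X.Adj x y)
    (hP : ∀ p ∈ P, p.map σ ∈ P) {n : ℕ} {U : Set V} (h : U ∈ MC X P n) : σ '' U ∈ MC X P n := by
  obtain ⟨h1, h2, p, hp, q, hq, h3, h4⟩ := h
  obtain ⟨h5, h6⟩ := cob_fin σ hσ U
  exact ⟨h5.2 h1, h6.trans h2, _, hP p hp, _, hP q hq, (sp_image σ p q U).2 h3, lo_image σ hσ h4⟩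

theorem nc_image (σ : Equiv.Perm V) (hσ : ∀ x y, X.Adj (σ x) (σ y) ↔ X.Adj x y)
    (hP : ∀ p ∈ P, p.map σ ∈ P) {n : ℕ} {B : Set (Set V)} (hB : ∀ U ∈ B, σ.symm '' U ∈ B)
    {U : Set V} (h : U ∈ NC X P n B) : σ '' U ∈ NC X P n B := by
  refine ⟨mc_image σ hσ hP h.1, fun W hW => ?_⟩
  rw [← sym_image σ W, nst_image]
  exact h.2 _ (hB W hW)

theorem cr_image (σ : Equiv.Perm V) {N : Set (Set V)} (h1 : ∀ U ∈ N, σ '' U ∈ N)
    (h2 : ∀ U ∈ N, σ.symm '' U ∈ N) (U : Set V) :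
    (cr N (σ '' U)).ncard = (cr N U).ncard := by
  have h3 : cr N (σ '' U) = (fun Z => σ '' Z) '' cr N U := by
    ext Z
    constructor
    · rintro ⟨h4, h5⟩
      refine ⟨σ.symm '' Z, ⟨h2 Z h4, fun h6 => h5 ?_⟩, sym_image σ Z⟩
      rw [← sym_image σ Z, nst_image]
      exact h6
    · rintro ⟨Z', ⟨h4, h5⟩, rfl⟩
      refine ⟨h1 _ h4, fun h6 => h5 ?_⟩
      exact (nst_image σ U Z').1 h6
  rw [h3]
  exact Set.ncard_image_of_injective _ σ.injective.image_injective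

theorem new_image (σ : Equiv.Perm V) (hσ : ∀ x y, X.Adj (σ x) (σ y) ↔ X.Adj x y)
    (hP : ∀ p ∈ P, p.map σ ∈ P) (hP' : ∀ p ∈ P, p.map σ.symm ∈ P) {n : ℕ} {B : Set (Set V)}
    (hB : ∀ U ∈ B, σ '' U ∈ B) (hB' : ∀ U ∈ B, σ.symm '' U ∈ B) {U : Set V}
    (h : U ∈ New X P n B) : σ '' U ∈ New X P n B := by
  obtain ⟨h1, p, hp, q, hq, h2, h3, h4⟩ := h
  have hσ' : ∀ x y, X.Adj (σ.symm x) (σ.symm y) ↔ X.Adj x y := by
    intro x y
    have := hσ (σ.symm x) (σ.symm y)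
    rw [σ.apply_symm_apply, σ.apply_symm_apply] at this
    exact this.symm
  have n1 : ∀ U ∈ NC X P n B, σ '' U ∈ NC X P n B := fun U hU => nc_image σ hσ hP hB' hU
  have n2 : ∀ U ∈ NC X P n B, σ.symm '' U ∈ NC X P n B := fun U hU =>
    nc_image σ.symm hσ' hP' (by rw [σ.symm_symm]; exact hB) hU
  refine ⟨n1 U h1, _, hP p hp, _, hP q hq, (sp_image σ p q U).2 h2, lo_image σ hσ h3, ?_⟩
  intro W hW hs
  rw [← sym_image σ W, sp_image] at hs
  have h5 := h4 _ (n2 W hW) hs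
  rw [cr_image σ n1 n2 U]
  have h6 := cr_image σ n1 n2 (σ.symm '' W)
  rw [sym_image] at h6
  rw [h6]
  exact h5

end

theorem inv : S_INV := by
  intro V X P σ hσ hP hP' n
  have hσ' : ∀ x y, X.Adj (σ.symm x) (σ.symm y) ↔ X.Adj x y := by
    intro x y
    have := hσ (σ.symm x) (σ.symm y)
    rw [σ.apply_symm_apply, σ.apply_symm_apply] at this
    exact this.symm
  have key : (∀ U ∈ Cum X P n, σ '' U ∈ Cum X P n) ∧ ∀ U ∈ Cum X P n, σ.symm '' U ∈ Cum X P n := by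
    induction n with
    | zero => exact ⟨fun U hU => hU.elim, fun U hU => hU.elim⟩
    | succ n ih =>
      refine ⟨?_, ?_⟩
      · rintro U (hU | hU)
        · exact Or.inl (ih.1 U hU)
        · exact Or.inr (new_image σ hσ hP hP' ih.1 ih.2 hU)
      · rintro U (hU | hU)
        · exact Or.inl (ih.2 U hU)
        · exact Or.inr (new_image σ.symm hσ' hP' (by rw [σ.symm_symm]; exact hP) ih.2
            (by rw [σ.symm_symm]; exact ih.1) hU)
  exact key.1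

end Q65.LR2
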